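import Pool.Agent.H412.H2A.Fin

/-!
# The second homology of Artin groups and the Hurewicz homomorphism of the Salvetti complex

`F` is the free group on a finite set `B`, `M` a Coxeter matrix (the entry `0` stands for
infinity), `relator M i j = (i j i ⋯) (j i j ⋯)⁻¹` the Artin relators, `R = rels M` their normal
closure, so that `A = F / R` is the Artin group.

* `relK M`: the subgroup of the free abelian group on the pairs which is generated by the
  boundaries of the 3-cells of type `A₁ × I₂(m)`, `m` odd, and `A₃` of the Salvetti complex (and
  by the trivial relators and `(i, j) + (j, i)`);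
* `bdryQ M`: the boundary operator from the 2-chains modulo `relK M` to the 1-chains;
* `hopf M = (R ∩ [F, F]) / [F, R]`, the second homology of `A` by Hopf's formula;
* `cj M (g, (i, j), ε)`: the conjugate by `g` of `relator M i j` (or of its inverse); `cl` its
  class `± (i, j)`;
* `zc M p`: the class of the relator of the pair `p` in `F / [F, R]`, a central element.

Every identity among the relators, that is, every element of the second homotopy group of the
presentation complex, has its class in `relK M`: the Hurewicz homomorphism of the Salvetti complex
is zero in degree two, for every Artin group.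
-/

set_option autoImplicit false

namespace Pool.Agent.Results.MP_c6122c_al.HurewiczVanishes

open Pool.Agent.TH901.H2A Pool.Agent.H412.H2A
open scoped IsMulCommutative

theorem result (B : Type) [Fintype B] [DecidableEq B] (M : CoxeterMatrix B) :
    (∀ l : List (FreeGroup B × (B × B) × Bool), (l.map (cj M)).prod = 1 →
      (l.map cl).sum ∈ relK M) ∧
    (∀ x : B × B → ℤ, ∏ p, zc M p ^ x p = 1 ↔ x ∈ relK M) ∧
    Nonempty (hopf M ≃* Multiplicative ↥(bdryQ M).ker) := by
  refine ⟨hurewicz M, fun x => ⟨fun h => ?_, fun h => ?_⟩, iso M⟩
  · apply ker_le
    apply Additive.toMul.injective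
    rw [Th_apply, toMul_sum]
    exact h
  · have h1 : Th M x = 0 := le_ker M h
    have h2 : (Additive.toMul (Th M x) : Subgroup.center (EE M)) = ∏ p, zc M p ^ x p := by
      rw [Th_apply, toMul_sum]
      rfl
    rw [← h2, h1]
    rfl

end Pool.Agent.Results.MP_c6122c_al.HurewiczVanishes
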